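import Pool.Agent.H233Z.Wave.Int

set_option autoImplicit false

/-! No decaying self-similar blow-up profile for the focusing wave equation in `ℝ³`, `3 < p < 5`. -/

namespace Pool.Agent.Results.MP_a45a4d_an.ANoProfile

open Set Filter Topology Asymptotics Pool.Agent.H233Z.Wave

/-- For `3 < p < 5`, a solution of the profile equation that is `C²` on `[0, ∞)` and is
`O(y ^ (-2 / (p - 1)))` at infinity vanishes on `[0, ∞)`. -/
theorem result (p : ℝ) (hp3 : 3 < p) (hp5 : p < 5) (Φ : ℝ → ℝ)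
    (hs : ContDiffOn ℝ 2 Φ (Ici 0))
    (hode : ∀ y : ℝ, 0 < y →
      (1 - y ^ 2) * deriv (deriv Φ) y + (2 / y - 2 * (p + 1) / (p - 1) * y) * deriv Φ y
        - 2 * (p + 1) / (p - 1) ^ 2 * Φ y + |Φ y| ^ (p - 1) * Φ y = 0)
    (hdec : Φ =O[atTop] fun y : ℝ => y ^ (-(2 / (p - 1)))) :
    ∀ y : ℝ, 0 ≤ y → Φ y = 0 := by
  have hp1 : 0 < p - 1 := by linarith
  have hα : 1 / 2 < 2 / (p - 1) := by
    rw [lt_div_iff₀ hp1]; linarith
  have hw : ∀ y : ℝ, 0 < y → derivWithin Φ (Ici 0) y = deriv Φ y := fun y hy =>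
    derivWithin_of_mem_nhds (Ici_mem_nhds hy)
  have h2 : ContDiffOn ℝ 1 (deriv Φ) (Ioi 0) :=
    (hs.mono Ioi_subset_Ici_self).deriv_of_isOpen isOpen_Ioi (by norm_num)
  have hS : Sol (2 / (p - 1)) (p - 1) Φ (derivWithin Φ (Ici 0)) (deriv (deriv Φ)) := by
    refine ⟨hs.continuousOn, hs.continuousOn_derivWithin (uniqueDiffOn_Ici 0) (by norm_num),
      fun y hy => ?_, fun y hy => ?_, fun y hy => ?_⟩
    · rw [hw y hy]
      exact ((hs.contDiffAt (Ici_mem_nhds hy)).differentiableAt (by norm_num)).hasDerivAt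
    · apply ((h2.contDiffAt (Ioi_mem_nhds hy)).differentiableAt
        (by norm_num)).hasDerivAt.congr_of_eventuallyEq
      filter_upwards [Ioi_mem_nhds hy] with z hz using hw z hz
    · rw [hw y hy, ← hode y hy]
      field_simp
      ring
  refine hS.eq_zero hα (by field_simp) (by linarith) ?_
  exact hdec.trans_tendsto (tendsto_rpow_neg_atTop (by linarith))

end Pool.Agent.Results.MP_a45a4d_an.ANoProfile
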